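import Mathlib

set_option autoImplicit false

namespace Pool.Agent.Results.MP_63ed06_co.Counter

open Finset

def X (n j : ℕ) : Finset (Fin n) := {i | i.val < j}

def Inter {n : ℕ} (d : ℕ) (F : Finset (Finset (Finset (Fin n)))) : Prop :=
  (∀ C ∈ F, C.Nonempty ∧ IsChain (· ⊆ ·) (C : Set (Finset (Fin n)))) ∧
    ∀ C ∈ F, ∀ D ∈ F, d ≤ #(C ∩ D)

theorem result (n d : ℕ) (h2 : 2 ≤ d) (hn : d ≤ n) (F : Finset (Finset (Finset (Fin n))))
    (hF : Inter d F) (hX : ∀ C ∈ F, ∀ j < d, X n j ∈ C) :
    ∃ G : Finset (Finset (Finset (Fin n))), Inter d G ∧ #F < #G := by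
  classical
  obtain ⟨e, rfl⟩ : ∃ e, d = e + 2 := ⟨d - 2, by omega⟩
  have mX : ∀ j (i : Fin n), i ∈ X n j ↔ i.val < j := fun j i => by simp [X]
  let z : Fin n := ⟨n - 1, by omega⟩
  have nu : ∀ j ≤ e + 1, X n j ≠ univ := fun j hj h => by
    have := (mX j z).1 (h ▸ mem_univ z)
    simp only [z] at this
    omega
  have inj : ∀ j ≤ e + 1, ∀ k ≤ e + 1, X n j = X n k → j = k := fun j hj k hk h => by
    have a := (mX j ⟨k, by omega⟩).symm.trans (h ▸ mX k ⟨k, by omega⟩)
    have b := (mX k ⟨j, by omega⟩).symm.trans (h ▸ mX j ⟨j, by omega⟩)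
    simp only at a b
    omega
  let B := insert univ ((range (e + 1)).image (X n))
  have cB : #B = e + 2 := by
    rw [card_insert_of_notMem, card_image_of_injOn, card_range]
    · exact fun j hj k hk => inj j (mem_range.1 hj).le k (mem_range.1 hk).le
    · intro h
      obtain ⟨j, hj, h⟩ := mem_image.1 h
      exact nu j (mem_range.1 hj).le h
  let G : Finset (Finset (Finset (Fin n))) :=
    {C | IsChain (· ⊆ ·) (C : Set (Finset (Fin n))) ∧ B ⊆ C}
  have mG : ∀ C, C ∈ G ↔ IsChain (· ⊆ ·) (C : Set (Finset (Fin n))) ∧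
      univ ∈ C ∧ ∀ j < e + 1, X n j ∈ C := fun C => by
    simp [G, B, insert_subset_iff, image_subset_iff]
  refine ⟨G, ⟨fun C hC => ⟨⟨_, ((mG C).1 hC).2.1⟩, ((mG C).1 hC).1⟩, fun C hC D hD =>
    cB ▸ card_le_card (subset_inter (mem_filter.1 hC).2.2 (mem_filter.1 hD).2.2)⟩, ?_⟩
  let f : Finset (Finset (Fin n)) → Finset (Finset (Fin n)) := fun C =>
    if univ ∈ C then C else insert univ (C.erase (X n (e + 1)))
  have k : ∀ C ∈ F, X n (e + 1) ∈ f C ↔ univ ∈ C := fun C hC => by
    by_cases h : univ ∈ C <;> simp [f, h, hX C hC, nu]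
  have hi : Set.InjOn f F := fun C hC D hD h => by
    have a := (k C hC).symm.trans (h ▸ k D hD)
    by_cases b : univ ∈ C
    · simpa [f, b, a.1 b] using h
    · have c := mt a.2 b
      simp only [f, b, c, if_false] at h
      rw [← insert_erase (hX C hC (e + 1) (by omega)), ← insert_erase (hX D hD (e + 1) (by omega)),
        ← erase_insert (mt mem_of_mem_erase b), h, erase_insert (mt mem_of_mem_erase c)]
  rw [← card_image_of_injOn hi]
  let Y := insert z (X n e)
  have y1 : ¬ Y ⊆ X n (e + 1) := fun h => by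
    have := (mX _ _).1 (h (mem_insert_self _ _))
    simp only [z] at this
    omega
  have mono : ∀ j k, j ≤ k → X n j ⊆ X n k := fun j k h i hi => (mX k i).2 (((mX j i).1 hi).trans_le h)
  refine card_lt_card ⟨image_subset_iff.2 fun C hC => (mG _).2 ?_, fun h => ?_⟩
  · by_cases b : univ ∈ C
    · simp only [f, b, if_true, true_and]
      exact ⟨(hF.1 C hC).2, fun j hj => hX C hC j (by omega)⟩
    · simp only [f, b, if_false, coe_insert]
      refine ⟨((hF.1 C hC).2.mono (coe_subset.2 (erase_subset _ _))).insert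
        fun _ _ _ => .inr (subset_univ _), mem_insert_self _ _, fun j hj => mem_insert_of_mem
        (mem_erase.2 ⟨fun q => hj.ne (inj j hj.le _ le_rfl q), hX C hC j (by omega)⟩)⟩
  · have hB : IsChain (· ⊆ ·) (↑(insert Y B) : Set (Finset (Fin n))) := by
      simp only [B, coe_insert, coe_image, coe_range]
      refine (IsChain.insert ?_ fun _ _ _ => .inr (subset_univ _)).insert ?_
      · rintro _ ⟨j, -, rfl⟩ _ ⟨k, -, rfl⟩ -
        exact (le_total j k).imp (mono j k) (mono k j)
      · rintro _ (rfl | ⟨j, hj, rfl⟩) -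
        exacts [.inl (subset_univ _),
          .inr ((mono j e (Nat.lt_succ_iff.1 hj)).trans (subset_insert _ _))]
    obtain ⟨C, hC, q⟩ := mem_image.1 (h (mem_filter.2 ⟨mem_univ _, hB, subset_insert _ _⟩))
    have y2 : ¬ X n (e + 1) ⊆ Y := fun h => by
      have := h ((mX _ ⟨e, by omega⟩).2 (by simp))
      simp only [Y, z, mem_insert, mX, Fin.mk.injEq] at this
      omega
    have y3 : Y ∈ C := by
      have a : Y ∈ f C := q ▸ mem_insert_self _ _
      by_cases b : univ ∈ C
      · simpa [f, b] using a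
      · simp only [f, b, if_false, mem_insert] at a
        exact a.elim (fun a => (y2 (a ▸ subset_univ _)).elim) mem_of_mem_erase
    exact ((hF.1 C hC).2.total y3 (hX C hC (e + 1) (by omega))).elim y1 y2

end Pool.Agent.Results.MP_63ed06_co.Counter
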